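import Pool.Agent.Helper41.MatchD3.Main

set_option autoImplicit false
open Finset Filter Topology MeasureTheory ProbabilityTheory

namespace Pool.Agent.Helper41.MatchD3

noncomputable section

lemma boundA_core {s : ℕ → Finset ℕ} {π X : ℕ → ℕ → ℝ} {A : ℕ → ℝ} {ψ : ℕ → ℝ → ℕ → ℂ}
    {ψ0 : ℕ → ℝ → ℂ} {C : ℝ} (H : Hyp s π X A ψ ψ0 C) : ∃ T₀ : ℝ, ∀ᶠ n in atTop, |A n| ≤ T₀ := by
  set T₀ : ℝ := 100 * (|C| + 1) with hT₀
  have hT1 : 100 ≤ T₀ := by
    have := abs_nonneg C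
    rw [hT₀]; linarith
  refine ⟨T₀, ?_⟩
  set δ : ℝ := 1 / T₀ with hδd
  have hT0p : 0 < T₀ := by linarith
  have hδ : 0 < δ := by positivity
  have hδ1 : δ ≤ 1 := by
    rw [hδd, div_le_one hT0p]; linarith
  have hkd := kd_pos hδ
  have hkd2 := kd_sqrt2_le hδ
  have hδ2 : 0 < Real.sqrt 2 * δ := by positivity
  have hs2 : Real.sqrt 2 ≤ 1.5 := by
    rw [Real.sqrt_le_left (by norm_num)]; norm_num
  -- tolerance
  set ε : ℝ := kd δ / 100 with hε
  have hεp : 0 < ε := by positivity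
  filter_upwards [lim_unif H hδ T₀ ε hT0p hεp, lim_zero H hδ 0 ε hεp, lim_zero H hδ (-T₀) ε hεp,
    lim_K H hδ2 ε hεp, H.h7] with n hU h0 hm hK h7
  by_contra hA
  push Not at hA
  have hA0 : A n ≠ 0 := by
    intro h
    rw [h, abs_zero] at hA
    linarith
  set t : ℝ := T₀ / A n with ht
  have htA : t * A n = T₀ := by rw [ht]; field_simp
  have ht1 : |t| ≤ 1 := by
    rw [ht, abs_div, abs_of_pos hT0p, div_le_one (by linarith)]
    exact hA.le
  set q : ℝ := qd δ T₀ with hq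
  have hqneg : qd δ (-T₀) = q := by rw [hq]; unfold qd; congr 2; ring
  have hq0 : 0 < q := Real.exp_pos _
  have hq1 : q ≤ 1 := by
    rw [hq]; unfold qd
    apply Real.exp_le_one_iff.2
    have : 0 ≤ T₀ ^ 2 * δ ^ 2 / (2 * (1 + δ ^ 2)) := by positivity
    linarith
  have hqq : q ^ 2 ≤ 2 / 3 := by
    rw [hq]; unfold qd
    rw [← Real.exp_nat_mul]
    have e : ((2:ℕ) : ℝ) * -(T₀ ^ 2 * δ ^ 2 / (2 * (1 + δ ^ 2))) = -(1 / (1 + δ ^ 2)) := by
      rw [hδd]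
      push_cast
      have : T₀ ≠ 0 := hT0p.ne'
      field_simp
    rw [e]
    have h1 : Real.exp (-(1 / (1 + δ ^ 2))) ≤ Real.exp (-(1/2)) := by
      apply Real.exp_le_exp.2
      apply neg_le_neg
      apply one_div_le_one_div_of_le (by positivity)
      nlinarith
    have h2 : Real.exp (-(1/2 : ℝ)) ≤ 2 / 3 := by
      rw [Real.exp_neg, inv_le_comm₀ (Real.exp_pos _) (by norm_num)]
      have := Real.add_one_le_exp (1/2 : ℝ)
      norm_num at this ⊢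
      linarith
    linarith
  set e : ℝ := Real.exp (-(t ^ 2 / 2)) with he
  have hep : 0 < e := Real.exp_pos _
  have he1 : 1 / 2 ≤ e := by
    have h1 := Real.add_one_le_exp (-(t ^ 2 / 2))
    have h2 : t ^ 2 ≤ 1 := by
      rw [← sq_abs]; exact pow_le_one₀ (abs_nonneg _) ht1
    linarith
  -- the four sums
  have hUT := hU t T₀ (by linarith) (by rw [abs_of_pos hT0p])
  have hU0 := hU t 0 (by linarith) (by rw [abs_zero]; linarith)
  have hqz : qd δ 0 = 1 := by unfold qd; simp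
  rw [hqz] at hU0 h0
  rw [hqneg] at hm
  rw [htA, sub_self] at hUT
  rw [htA, zero_sub] at hU0
  set L : ℝ := 2 * |C| with hL
  have hL0 : 0 ≤ L := by positivity
  have hrep : ∀ k ∈ s n, π n k ≠ 0 → ‖ψ n t k - ψ0 n t‖ ≤ L * |X n k| := by
    intro k hk h0
    refine (h7 t k hk h0).trans ?_
    have h1 : C * (1 + |t|) ≤ L := by
      calc C * (1 + |t|) ≤ |C| * (1 + |t|) :=
            mul_le_mul_of_nonneg_right (le_abs_self C) (by positivity)
        _ ≤ |C| * 2 := mul_le_mul_of_nonneg_left (by linarith) (abs_nonneg _)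
        _ = L := by rw [hL]; ring
    exact mul_le_mul_of_nonneg_right h1 (abs_nonneg _)
  have hR1 := replace_le (s := s n) (π := π n) (X := X n) (ψ := ψ n t)
    (φ := fun k => Complex.exp (Complex.I * ((0 * X n k : ℝ) : ℂ))) (z := ψ0 n t) hδ (H.h1 n)
    (fun k => (norm_cexp_I_mul _).le) hrep hL0
  have hR2 := replace_le (s := s n) (π := π n) (X := X n) (ψ := ψ n t)
    (φ := fun k => Complex.exp (Complex.I * ((-T₀ * X n k : ℝ) : ℂ))) (z := ψ0 n t) hδ (H.h1 n)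
    (fun k => (norm_cexp_I_mul _).le) hrep hL0
  have hKs : L * δ * ∑ k ∈ s n, π n k * K (Real.sqrt 2 * δ) (X n k) ≤ kd δ * (1 / 25) := by
    have h1 : ∑ k ∈ s n, π n k * K (Real.sqrt 2 * δ) (X n k) ≤ 2 * kd δ := by
      have := (abs_le.1 hK).2
      nlinarith
    have h2 : L * δ ≤ 1 / 50 := by
      rw [hL, hδd, mul_one_div, div_le_iff₀ hT0p, hT₀]
      linarith [abs_nonneg C]
    have h3 : 0 ≤ L * δ := by positivity
    calc L * δ * ∑ k ∈ s n, π n k * K (Real.sqrt 2 * δ) (X n k) ≤ L * δ * (2 * kd δ) :=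
          mul_le_mul_of_nonneg_left h1 h3
      _ ≤ 1 / 50 * (2 * kd δ) := mul_le_mul_of_nonneg_right h2 (by positivity)
      _ = kd δ * (1 / 25) := by ring
  set S1 := ∑ k ∈ s n, (π n k : ℂ) * (Complex.exp (Complex.I * ((0 * X n k : ℝ) : ℂ)) * ψ n t k
    * (K δ (X n k) : ℂ)) with hS1
  set S2 := ∑ k ∈ s n, (π n k : ℂ) * (Complex.exp (Complex.I * ((-T₀ * X n k : ℝ) : ℂ)) * ψ n t k
    * (K δ (X n k) : ℂ)) with hS2
  set S3 := ∑ k ∈ s n, (π n k : ℂ) * (Complex.exp (Complex.I * ((0 * X n k : ℝ) : ℂ))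
    * (K δ (X n k) : ℂ)) with hS3
  set S4 := ∑ k ∈ s n, (π n k : ℂ) * (Complex.exp (Complex.I * ((-T₀ * X n k : ℝ) : ℂ))
    * (K δ (X n k) : ℂ)) with hS4
  set z := ψ0 n t with hz
  have hz1 : ‖z‖ ≤ 1 := H.h4 n t
  -- e q kd ≈ z kd ,  e kd ≈ z q kd
  have hA1 : ‖((e * (kd δ * q) : ℝ) : ℂ) - z * ((kd δ * 1 : ℝ) : ℂ)‖ ≤ ε + (kd δ * (1 / 25) + ε) := by
    have e1 : ((e * (kd δ * q) : ℝ) : ℂ) - z * ((kd δ * 1 : ℝ) : ℂ) =
        -(S1 - ((e * (kd δ * q) : ℝ) : ℂ)) + ((S1 - z * S3) + z * (S3 - ((kd δ * 1 : ℝ) : ℂ))) := by ring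
    rw [e1]
    refine (norm_add_le _ _).trans (add_le_add (by rw [norm_neg]; exact hUT) ?_)
    refine (norm_add_le _ _).trans (add_le_add (hR1.trans hKs) ?_)
    rw [norm_mul]
    calc ‖z‖ * ‖S3 - ((kd δ * 1 : ℝ) : ℂ)‖ ≤ 1 * ε := mul_le_mul hz1 h0 (norm_nonneg _) zero_le_one
      _ = ε := one_mul _
  have hA2 : ‖((e * (kd δ * 1) : ℝ) : ℂ) - z * ((kd δ * q : ℝ) : ℂ)‖ ≤ ε + (kd δ * (1 / 25) + ε) := by
    have e1 : ((e * (kd δ * 1) : ℝ) : ℂ) - z * ((kd δ * q : ℝ) : ℂ) =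
        -(S2 - ((e * (kd δ * 1) : ℝ) : ℂ)) + ((S2 - z * S4) + z * (S4 - ((kd δ * q : ℝ) : ℂ))) := by ring
    rw [e1]
    refine (norm_add_le _ _).trans (add_le_add (by rw [norm_neg]; exact hU0) ?_)
    refine (norm_add_le _ _).trans (add_le_add (hR2.trans hKs) ?_)
    rw [norm_mul]
    calc ‖z‖ * ‖S4 - ((kd δ * q : ℝ) : ℂ)‖ ≤ 1 * ε := mul_le_mul hz1 hm (norm_nonneg _) zero_le_one
      _ = ε := one_mul _
  have hfin : e * kd δ * (1 - q ^ 2) ≤ 2 * (ε + (kd δ * (1 / 25) + ε)) := by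
    have e1 : ((e * kd δ * (1 - q ^ 2) : ℝ) : ℂ) =
        (((e * (kd δ * 1) : ℝ) : ℂ) - z * ((kd δ * q : ℝ) : ℂ)) -
          (q : ℂ) * (((e * (kd δ * q) : ℝ) : ℂ) - z * ((kd δ * 1 : ℝ) : ℂ)) := by
      push_cast; ring
    have h1 : ‖((e * kd δ * (1 - q ^ 2) : ℝ) : ℂ)‖ ≤ (ε + (kd δ * (1 / 25) + ε)) +
        (ε + (kd δ * (1 / 25) + ε)) := by
      rw [e1]
      refine (norm_sub_le _ _).trans (add_le_add hA2 ?_)
      rw [norm_mul, Complex.norm_real, Real.norm_eq_abs, abs_of_pos hq0]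
      calc q * ‖((e * (kd δ * q) : ℝ) : ℂ) - z * ((kd δ * 1 : ℝ) : ℂ)‖ ≤
            1 * (ε + (kd δ * (1 / 25) + ε)) := mul_le_mul hq1 hA1 (norm_nonneg _) zero_le_one
        _ = _ := one_mul _
    rw [Complex.norm_real, Real.norm_eq_abs] at h1
    have := le_abs_self (e * kd δ * (1 - q ^ 2))
    linarith
  have hlow : kd δ * (1 / 6) ≤ e * kd δ * (1 - q ^ 2) := by
    have h1 : (1:ℝ) / 3 ≤ 1 - q ^ 2 := by linarith
    have h2 : kd δ * (1 / 2) ≤ e * kd δ := by nlinarith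
    calc kd δ * (1 / 6) = kd δ * (1 / 2) * (1 / 3) := by ring
      _ ≤ e * kd δ * (1 - q ^ 2) := mul_le_mul h2 h1 (by norm_num) (by positivity)
  rw [hε] at hfin
  clear_value S1 S2 S3 S4 e q L ε δ
  have : kd δ * (1 / 6) ≤ 2 * (kd δ / 100 + (kd δ * (1 / 25) + kd δ / 100)) := hlow.trans hfin
  linarith

theorem boundA : Pool.Agent.Helper70.Matching.Spec_boundA := by
  intro s π X A ψ ψ0 C h1 h2 h3 h4 h5 hJ h7
  exact boundA_core ⟨h1, h2, h3, h4, h5, hJ, h7⟩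

lemma depoisson_core {s : ℕ → Finset ℕ} {π X : ℕ → ℕ → ℝ} {A : ℕ → ℝ} {ψ : ℕ → ℝ → ℕ → ℂ}
    {ψ0 : ℕ → ℝ → ℂ} {C : ℝ} (H : Hyp s π X A ψ ψ0 C) {T₀ : ℝ} (hA : ∀ᶠ n in atTop, |A n| ≤ T₀)
    (t : ℝ) : Tendsto (fun n => ψ0 n t) atTop (𝓝 (Complex.exp (-(t ^ 2 / 2 : ℝ)))) := by
  rw [Metric.tendsto_atTop']
  intro η hη
  set L : ℝ := |C| * (1 + |t|) + |t| * |T₀| with hL
  have hL0 : 0 ≤ L := by positivity
  set δ : ℝ := min 1 (η / (8 * (L + 1))) with hδd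
  have hδ : 0 < δ := lt_min one_pos (by positivity)
  have hδ2 : 0 < Real.sqrt 2 * δ := by positivity
  have hLδ : L * δ ≤ η / 8 := by
    calc L * δ ≤ L * (η / (8 * (L + 1))) := mul_le_mul_of_nonneg_left (min_le_right _ _) hL0
      _ ≤ η / 8 := by
        rw [mul_div_assoc', div_le_div_iff₀ (by positivity) (by norm_num)]
        nlinarith
  have hkd := kd_pos hδ
  have hkd2 := kd_sqrt2_le hδ
  have hs2 : Real.sqrt 2 ≤ 1.5 := by
    rw [Real.sqrt_le_left (by norm_num)]; norm_num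
  set ε : ℝ := min (kd δ / 2) (kd δ * η / 16) with hε
  have hεp : 0 < ε := lt_min (by positivity) (by positivity)
  have hε1 : ε ≤ kd δ / 2 := min_le_left _ _
  have hε2 : ε ≤ kd δ * η / 16 := min_le_right _ _
  have hev : ∀ᶠ n in atTop, dist (ψ0 n t) (Complex.exp (-(t ^ 2 / 2 : ℝ))) < η := by
    filter_upwards [lim_unif H hδ (|t| + 1) ε (by positivity) hεp, lim_K H hδ ε hεp,
      lim_K H hδ2 ε hεp, H.h7, hA] with n hU h0 hK h7 hAn
    have hU0 := hU t 0 (by linarith) (by rw [abs_zero]; positivity)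
    have hqz : qd δ 0 = 1 := by unfold qd; simp
    rw [hqz, mul_one] at hU0
    have hrep : ∀ k ∈ s n, π n k ≠ 0 →
        ‖Complex.exp (Complex.I * (((0 - t * A n) * X n k : ℝ) : ℂ)) * ψ n t k - ψ0 n t‖ ≤ L * |X n k| := by
      intro k hk hk0
      have e1 : Complex.exp (Complex.I * (((0 - t * A n) * X n k : ℝ) : ℂ)) * ψ n t k - ψ0 n t =
          (Complex.exp (Complex.I * (((0 - t * A n) * X n k : ℝ) : ℂ)) - 1) * ψ n t k +
            (ψ n t k - ψ0 n t) := by ring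
      rw [e1]
      refine (norm_add_le _ _).trans ?_
      have h1 : ‖(Complex.exp (Complex.I * (((0 - t * A n) * X n k : ℝ) : ℂ)) - 1) * ψ n t k‖ ≤
          |t| * |T₀| * |X n k| := by
        rw [norm_mul]
        have h2 : ‖Complex.exp (Complex.I * (((0 - t * A n) * X n k : ℝ) : ℂ)) - 1‖ ≤
            |(0 - t * A n) * X n k| := by
          have := Real.norm_exp_I_mul_ofReal_sub_one_le (x := (0 - t * A n) * X n k)
          simpa [Real.norm_eq_abs] using this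
        have h3 : |(0 - t * A n) * X n k| ≤ |t| * |T₀| * |X n k| := by
          rw [abs_mul, zero_sub, abs_neg, abs_mul]
          have : |A n| ≤ |T₀| := hAn.trans (le_abs_self _)
          gcongr
        calc _ ≤ (|t| * |T₀| * |X n k|) * 1 :=
              mul_le_mul (h2.trans h3) (H.h3 n t k) (norm_nonneg _) (by positivity)
          _ = _ := mul_one _
      have h2 : ‖ψ n t k - ψ0 n t‖ ≤ |C| * (1 + |t|) * |X n k| := by
        refine (h7 t k hk hk0).trans ?_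
        have : C ≤ |C| := le_abs_self _
        gcongr
      rw [hL, add_mul]
      linarith
    have hR := replace_le (s := s n) (π := π n) (X := X n)
      (ψ := fun k => Complex.exp (Complex.I * (((0 - t * A n) * X n k : ℝ) : ℂ)) * ψ n t k)
      (φ := fun _ => 1) (z := ψ0 n t) hδ (H.h1 n) (fun k => by simp) hrep hL0
    simp only [one_mul] at hR
    have hKs : L * δ * ∑ k ∈ s n, π n k * K (Real.sqrt 2 * δ) (X n k) ≤ kd δ * (η / 4) := by
      have h1 : ∑ k ∈ s n, π n k * K (Real.sqrt 2 * δ) (X n k) ≤ 2 * kd δ := by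
        have := (abs_le.1 hK).2
        nlinarith
      have h3 : 0 ≤ L * δ := by positivity
      calc L * δ * ∑ k ∈ s n, π n k * K (Real.sqrt 2 * δ) (X n k) ≤ L * δ * (2 * kd δ) :=
            mul_le_mul_of_nonneg_left h1 h3
        _ ≤ η / 8 * (2 * kd δ) := mul_le_mul_of_nonneg_right hLδ (by positivity)
        _ = kd δ * (η / 4) := by ring
    set z := ψ0 n t with hz
    have hz1 : ‖z‖ ≤ 1 := H.h4 n t
    set S1 := ∑ k ∈ s n, (π n k : ℂ) * (Complex.exp (Complex.I * (((0 - t * A n) * X n k : ℝ) : ℂ)) * ψ n t k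
      * (K δ (X n k) : ℂ)) with hS1
    have hS3 : ∑ k ∈ s n, (π n k : ℂ) * (K δ (X n k) : ℂ) = ((∑ k ∈ s n, π n k * K δ (X n k) : ℝ) : ℂ) := by
      push_cast; rfl
    rw [hS3] at hR
    set r := ∑ k ∈ s n, π n k * K δ (X n k) with hr
    have hmain : ‖z * (kd δ : ℂ) - ((Real.exp (-(t ^ 2 / 2)) * kd δ : ℝ) : ℂ)‖ ≤
        ε + (kd δ * (η / 4) + ε) := by
      have e1 : z * (kd δ : ℂ) - ((Real.exp (-(t ^ 2 / 2)) * kd δ : ℝ) : ℂ) =
          (S1 - ((Real.exp (-(t ^ 2 / 2)) * kd δ : ℝ) : ℂ)) +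
            (-(S1 - z * (r : ℂ)) + -(z * ((r - kd δ : ℝ) : ℂ))) := by
        push_cast; ring
      rw [e1]
      refine (norm_add_le _ _).trans (add_le_add hU0 ?_)
      refine (norm_add_le _ _).trans (add_le_add (by rw [norm_neg]; exact hR.trans hKs) ?_)
      rw [norm_neg, norm_mul, Complex.norm_real, Real.norm_eq_abs]
      calc ‖z‖ * |r - kd δ| ≤ 1 * ε := mul_le_mul hz1 h0 (abs_nonneg _) zero_le_one
        _ = ε := one_mul _
    have hfac : ‖z * (kd δ : ℂ) - ((Real.exp (-(t ^ 2 / 2)) * kd δ : ℝ) : ℂ)‖ =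
        dist z (Complex.exp (-(t ^ 2 / 2 : ℝ))) * kd δ := by
      have e1 : z * (kd δ : ℂ) - ((Real.exp (-(t ^ 2 / 2)) * kd δ : ℝ) : ℂ) =
          (z - Complex.exp (-(t ^ 2 / 2 : ℝ))) * (kd δ : ℂ) := by
        push_cast; ring
      rw [e1, norm_mul, dist_eq_norm, Complex.norm_real, Real.norm_eq_abs, abs_of_pos hkd]
    rw [hfac] at hmain
    have h9 : dist z (Complex.exp (-(t ^ 2 / 2 : ℝ))) * kd δ < η * kd δ := by
      have : 0 < η * kd δ := by positivity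
      nlinarith
    exact lt_of_mul_lt_mul_right h9 hkd.le
  rw [Filter.eventually_atTop] at hev
  obtain ⟨N, hN⟩ := hev
  exact ⟨N, fun n hn => hN n (le_of_lt hn)⟩

theorem depoisson' : Pool.Agent.Helper70.Matching.Spec_depoisson := by
  intro s π X A ψ ψ0 C h1 h2 h3 h4 h5 hJ h7 t
  have H : Hyp s π X A ψ ψ0 C := ⟨h1, h2, h3, h4, h5, hJ, h7⟩
  obtain ⟨T₀, hT⟩ := boundA_core H
  exact depoisson_core H hT t

theorem depoisson (_h : Pool.Agent.Helper70.Matching.Spec_boundA) :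
    Pool.Agent.Helper70.Matching.Spec_depoisson := depoisson'

end

end Pool.Agent.Helper41.MatchD3

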