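import Pool.Agent.Helper70.Matching.Specs4

set_option autoImplicit false
open Finset Filter Topology MeasureTheory ProbabilityTheory

namespace Pool.Agent.Helper41.MatchD3

noncomputable section

/-- Gaussian window -/
def K (δ x : ℝ) : ℝ := Real.exp (-(x ^ 2 / (2 * δ ^ 2)))
def kd (δ : ℝ) : ℝ := δ / Real.sqrt (1 + δ ^ 2)
def qd (δ a : ℝ) : ℝ := Real.exp (-(a ^ 2 * δ ^ 2 / (2 * (1 + δ ^ 2))))
def vd (δ : ℝ) : NNReal := ⟨1 / δ ^ 2, by positivity⟩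
def gm (δ : ℝ) : Measure ℝ := gaussianReal 0 (vd δ)

instance (δ : ℝ) : IsProbabilityMeasure (gm δ) := by unfold gm; infer_instance

lemma vd_ne {δ : ℝ} (hδ : 0 < δ) : vd δ ≠ 0 := by
  intro h
  have : (vd δ : ℝ) = 0 := by rw [h]; rfl
  have h2 : (vd δ : ℝ) = 1 / δ ^ 2 := rfl
  rw [h2] at this
  have : (0:ℝ) < 1 / δ ^ 2 := by positivity
  linarith

lemma K_pos (δ x : ℝ) : 0 < K δ x := Real.exp_pos _
lemma K_le_one (δ x : ℝ) : K δ x ≤ 1 := by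
  unfold K
  apply Real.exp_le_one_iff.2
  have : 0 ≤ x ^ 2 / (2 * δ ^ 2) := by positivity
  linarith

lemma kd_pos {δ : ℝ} (hδ : 0 < δ) : 0 < kd δ := by
  unfold kd; positivity

lemma K_eq {δ : ℝ} (hδ : 0 < δ) (x : ℝ) :
    ∫ u, Complex.exp (Complex.I * ((u * x : ℝ) : ℂ)) ∂(gm δ) = ((K δ x : ℝ) : ℂ) := by
  have h := charFun_gaussianReal (μ := 0) (v := vd δ) x
  rw [charFun_apply_real] at h
  have h2 : (fun u : ℝ => Complex.exp (Complex.I * ((u * x : ℝ) : ℂ))) =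
      (fun u : ℝ => Complex.exp ((x : ℂ) * u * Complex.I)) := by
    ext u; congr 1; push_cast; ring
  rw [h2]
  unfold gm
  rw [h]
  unfold K
  rw [Complex.ofReal_exp]
  congr 1
  have h3 : (((vd δ : NNReal) : ℝ) : ℂ) = 1 / (δ : ℂ) ^ 2 := by
    have : ((vd δ : NNReal) : ℝ) = 1 / δ ^ 2 := rfl
    rw [this]; push_cast; ring
  have hd : (δ : ℂ) ≠ 0 := by exact_mod_cast hδ.ne'
  push_cast
  rw [h3]
  field_simp
  ring

lemma gauss_int {δ : ℝ} (hδ : 0 < δ) (a : ℝ) :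
    ∫ u, Real.exp (-((u + a) ^ 2 / 2)) ∂(gm δ) = kd δ * qd δ a := by
  unfold gm
  rw [integral_gaussianReal_eq_integral_smul (vd_ne hδ)]
  have hv : ((vd δ : NNReal) : ℝ) = 1 / δ ^ 2 := rfl
  have e1 : (fun u : ℝ => gaussianPDFReal 0 (vd δ) u • Real.exp (-((u + a) ^ 2 / 2))) =
      (fun u : ℝ => ((Real.sqrt (2 * Real.pi * (1 / δ ^ 2)))⁻¹ * qd δ a) *
        (fun y => Real.exp (-((1 + δ ^ 2) / 2) * y ^ 2)) (u + a / (1 + δ ^ 2))) := by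
    ext u
    unfold gaussianPDFReal qd
    rw [hv, smul_eq_mul]
    have hne : (1 + δ ^ 2) ≠ 0 := by positivity
    generalize (Real.sqrt (2 * Real.pi * (1 / δ ^ 2)))⁻¹ = c
    calc c * Real.exp (-(u - 0) ^ 2 / (2 * (1 / δ ^ 2))) * Real.exp (-((u + a) ^ 2 / 2))
        = c * (Real.exp (-(u - 0) ^ 2 / (2 * (1 / δ ^ 2))) * Real.exp (-((u + a) ^ 2 / 2))) := by ring
      _ = c * (Real.exp (-(a ^ 2 * δ ^ 2 / (2 * (1 + δ ^ 2)))) *
            Real.exp (-((1 + δ ^ 2) / 2) * (u + a / (1 + δ ^ 2)) ^ 2)) := by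
          rw [← Real.exp_add, ← Real.exp_add]
          congr 2
          field_simp
          ring
      _ = _ := by ring
  rw [e1, integral_const_mul]
  rw [integral_add_right_eq_self (fun y => Real.exp (-((1 + δ ^ 2) / 2) * y ^ 2))]
  rw [integral_gaussian]
  unfold kd
  rw [mul_comm _ (qd δ a), mul_assoc, mul_comm (qd δ a)]
  congr 1
  rw [← Real.sqrt_inv, ← Real.sqrt_mul (by positivity)]
  rw [show (2 * Real.pi * (1 / δ ^ 2))⁻¹ * (Real.pi / ((1 + δ ^ 2) / 2)) = δ ^ 2 / (1 + δ ^ 2) by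
    have := Real.pi_pos
    field_simp]
  rw [Real.sqrt_div (by positivity), Real.sqrt_sq hδ.le]

lemma absK_le {δ : ℝ} (hδ : 0 < δ) (x : ℝ) : |x| * K δ x ≤ δ * K (Real.sqrt 2 * δ) x := by
  unfold K
  have h2 : (Real.sqrt 2 * δ) ^ 2 = 2 * δ ^ 2 := by
    rw [mul_pow, Real.sq_sqrt (by norm_num)]
  rw [h2]
  -- y = |x|/δ ; y exp(-y^2/4) ≤ 1
  have hy : |x| / δ ≤ Real.exp (x ^ 2 / (4 * δ ^ 2)) := by
    have h3 := Real.add_one_le_exp (x ^ 2 / (4 * δ ^ 2))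
    have h4 : |x| / δ ≤ x ^ 2 / (4 * δ ^ 2) + 1 := by
      have : x ^ 2 / (4 * δ ^ 2) = (|x| / δ) ^ 2 / 4 := by
        rw [div_pow, sq_abs]; field_simp
      rw [this]
      nlinarith [sq_nonneg (|x| / δ - 2)]
    linarith
  have h5 : |x| ≤ δ * Real.exp (x ^ 2 / (4 * δ ^ 2)) := by
    rw [div_le_iff₀ hδ] at hy; linarith
  calc |x| * Real.exp (-(x ^ 2 / (2 * δ ^ 2)))
      ≤ (δ * Real.exp (x ^ 2 / (4 * δ ^ 2))) * Real.exp (-(x ^ 2 / (2 * δ ^ 2))) := by gcongr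
    _ = δ * Real.exp (-(x ^ 2 / (2 * (2 * δ ^ 2)))) := by
        rw [mul_assoc, ← Real.exp_add]
        congr 2
        field_simp
        ring

lemma kd_sqrt2_le {δ : ℝ} (hδ : 0 < δ) : kd (Real.sqrt 2 * δ) ≤ Real.sqrt 2 * kd δ := by
  unfold kd
  rw [mul_div_assoc]
  have h2 : (Real.sqrt 2 * δ) ^ 2 = 2 * δ ^ 2 := by
    rw [mul_pow, Real.sq_sqrt (by norm_num)]
  rw [h2]
  have h3 : Real.sqrt (1 + δ ^ 2) ≤ Real.sqrt (1 + 2 * δ ^ 2) := by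
    apply Real.sqrt_le_sqrt
    nlinarith [sq_nonneg δ]
  have h4 : 0 < Real.sqrt (1 + δ ^ 2) := by positivity
  gcongr

end

end Pool.Agent.Helper41.MatchD3
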