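import Pool.Agent.Helper41.MatchD3.Kernel

set_option autoImplicit false
open Finset Filter Topology MeasureTheory ProbabilityTheory

namespace Pool.Agent.Helper41.MatchD3

noncomputable section

structure Hyp (s : ℕ → Finset ℕ) (π X : ℕ → ℕ → ℝ) (A : ℕ → ℝ) (ψ : ℕ → ℝ → ℕ → ℂ)
    (ψ0 : ℕ → ℝ → ℂ) (C : ℝ) : Prop where
  h1 : ∀ n k, 0 ≤ π n k
  h2 : ∀ᶠ n in atTop, ∑ k ∈ s n, π n k = 1
  h3 : ∀ n t k, ‖ψ n t k‖ ≤ 1
  h4 : ∀ n t, ‖ψ0 n t‖ ≤ 1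
  h5 : ∀ᶠ n in atTop, ∀ k ∈ s n, ψ n 0 k = 1
  hJ : ∀ T ε : ℝ, 0 < T → 0 < ε → ∀ᶠ n in atTop, ∀ t u : ℝ, |t| ≤ T → |u| ≤ T →
      ‖∑ k ∈ s n, (π n k : ℂ) * (Complex.exp (Complex.I * (((u - t * A n) * X n k : ℝ) : ℂ)) * ψ n t k)
        - Complex.exp (-((t ^ 2 + u ^ 2) / 2 : ℝ))‖ ≤ ε
  h7 : ∀ᶠ n in atTop, ∀ t : ℝ, ∀ k ∈ s n, π n k ≠ 0 →
      ‖ψ n t k - ψ0 n t‖ ≤ C * (1 + |t|) * |X n k|

lemma norm_cexp_I_mul (x : ℝ) : ‖Complex.exp (Complex.I * (x : ℂ))‖ = 1 := by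
  rw [mul_comm]; exact Complex.norm_exp_ofReal_mul_I x

lemma integrable_cexp (δ : ℝ) (b c : ℝ) :
    Integrable (fun u : ℝ => Complex.exp (Complex.I * ((u * b + c : ℝ) : ℂ))) (gm δ) := by
  apply Integrable.of_bound (C := 1)
  · exact (by fun_prop : Continuous (fun u : ℝ => Complex.exp (Complex.I * ((u * b + c : ℝ) : ℂ)))).aestronglyMeasurable
  · filter_upwards with u
    rw [norm_cexp_I_mul]

lemma int_G {δ : ℝ} (hδ : 0 < δ) (s : Finset ℕ) (π X : ℕ → ℝ) (ψ : ℕ → ℂ) (a c t : ℝ) :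
    ∫ u, (∑ k ∈ s, (π k : ℂ) * (Complex.exp (Complex.I * ((((u + a) - c) * X k : ℝ) : ℂ)) * ψ k)
      - Complex.exp (-((t ^ 2 + (u + a) ^ 2) / 2 : ℝ))) ∂(gm δ)
    = ∑ k ∈ s, (π k : ℂ) * (Complex.exp (Complex.I * (((a - c) * X k : ℝ) : ℂ)) * ψ k * (K δ (X k) : ℂ))
      - ((Real.exp (-(t ^ 2 / 2)) * (kd δ * qd δ a) : ℝ) : ℂ) := by
  have hint : ∀ k, Integrable (fun u : ℝ =>
      (π k : ℂ) * (Complex.exp (Complex.I * ((((u + a) - c) * X k : ℝ) : ℂ)) * ψ k)) (gm δ) := by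
    intro k
    have := (integrable_cexp δ (X k) ((a - c) * X k)).mul_const (ψ k)
    have h2 := this.const_mul (π k : ℂ)
    refine h2.congr ?_
    filter_upwards with u
    congr 4
    push_cast; ring
  have hint2 : Integrable (fun u : ℝ => Complex.exp (-((t ^ 2 + (u + a) ^ 2) / 2 : ℝ))) (gm δ) := by
    apply Integrable.of_bound (C := 1)
    · exact (by fun_prop : Continuous (fun u : ℝ => Complex.exp (-((t ^ 2 + (u + a) ^ 2) / 2 : ℝ)))).aestronglyMeasurable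
    · filter_upwards with u
      rw [← Complex.ofReal_neg, ← Complex.ofReal_exp, Complex.norm_real, Real.norm_eq_abs,
        abs_of_pos (Real.exp_pos _)]
      apply Real.exp_le_one_iff.2
      have : 0 ≤ (t ^ 2 + (u + a) ^ 2) / 2 := by positivity
      linarith
  rw [integral_sub (integrable_finsetSum _ (fun k _ => hint k)) hint2,
    integral_finsetSum _ (fun k _ => hint k)]
  congr 1
  · apply Finset.sum_congr rfl
    intro k _
    have e : (fun u : ℝ => (π k : ℂ) * (Complex.exp (Complex.I * ((((u + a) - c) * X k : ℝ) : ℂ)) * ψ k))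
        = fun u : ℝ => ((π k : ℂ) * (Complex.exp (Complex.I * (((a - c) * X k : ℝ) : ℂ)) * ψ k)) *
          Complex.exp (Complex.I * ((u * X k : ℝ) : ℂ)) := by
      ext u
      have : Complex.exp (Complex.I * ((((u + a) - c) * X k : ℝ) : ℂ)) =
          Complex.exp (Complex.I * (((a - c) * X k : ℝ) : ℂ)) * Complex.exp (Complex.I * ((u * X k : ℝ) : ℂ)) := by
        rw [← Complex.exp_add]; congr 1; push_cast; ring
      rw [this]; ring
    rw [e, integral_const_mul, K_eq hδ]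
    ring
  · have e : (fun u : ℝ => Complex.exp (-((t ^ 2 + (u + a) ^ 2) / 2 : ℝ))) =
        fun u : ℝ => ((Real.exp (-(t ^ 2 / 2)) * Real.exp (-((u + a) ^ 2 / 2)) : ℝ) : ℂ) := by
      ext u
      rw [← Real.exp_add, Complex.ofReal_exp]
      congr 1
      push_cast; ring
    rw [e, integral_complex_ofReal, integral_const_mul, gauss_int hδ]

lemma lim_unif {s : ℕ → Finset ℕ} {π X : ℕ → ℕ → ℝ} {A : ℕ → ℝ} {ψ : ℕ → ℝ → ℕ → ℂ}
    {ψ0 : ℕ → ℝ → ℂ} {C : ℝ} (H : Hyp s π X A ψ ψ0 C) {δ : ℝ} (hδ : 0 < δ) (T ε : ℝ) (hT : 0 < T)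
    (hε : 0 < ε) : ∀ᶠ n in atTop, ∀ t a : ℝ, |t| ≤ T → |a| ≤ T →
      ‖∑ k ∈ s n, (π n k : ℂ) * (Complex.exp (Complex.I * (((a - t * A n) * X n k : ℝ) : ℂ)) * ψ n t k
          * (K δ (X n k) : ℂ))
        - ((Real.exp (-(t ^ 2 / 2)) * (kd δ * qd δ a) : ℝ) : ℂ)‖ ≤ ε := by
  have hsq : Integrable (fun u : ℝ => u ^ 2) (gm δ) := by
    have := (memLp_id_gaussianReal (μ := 0) (v := vd δ) 2).integrable_sq
    exact this
  set M2 : ℝ := ∫ u, u ^ 2 ∂(gm δ) with hM2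
  have hM2n : 0 ≤ M2 := integral_nonneg (fun u => sq_nonneg u)
  set R : ℝ := 1 + 4 * M2 / ε with hR
  have hR1 : 1 ≤ R := by
    have : 0 ≤ 4 * M2 / ε := by positivity
    linarith
  have hRM : 2 * M2 / R ^ 2 ≤ ε / 2 := by
    rw [div_le_iff₀ (by positivity)]
    have h1 : 4 * M2 / ε ≤ R ^ 2 := by nlinarith
    rw [div_le_iff₀ hε] at h1
    linarith
  filter_upwards [H.hJ (R + T) (ε / 2) (by linarith) (by linarith), H.h2] with n hn hsum t a ht ha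
  rw [← int_G hδ (s n) (π n) (X n) (ψ n t) a (t * A n) t]
  have hbound : ∀ u : ℝ, ‖∑ k ∈ s n, (π n k : ℂ) *
      (Complex.exp (Complex.I * ((((u + a) - t * A n) * X n k : ℝ) : ℂ)) * ψ n t k)
      - Complex.exp (-((t ^ 2 + (u + a) ^ 2) / 2 : ℝ))‖ ≤ ε / 2 + 2 / R ^ 2 * u ^ 2 := by
    intro u
    by_cases hu : |u| ≤ R
    · have := hn t (u + a) (by linarith) (by
        calc |u + a| ≤ |u| + |a| := abs_add_le _ _
          _ ≤ R + T := by linarith)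
      have h2 : 0 ≤ 2 / R ^ 2 * u ^ 2 := by positivity
      linarith
    · push Not at hu
      have h1 : ‖∑ k ∈ s n, (π n k : ℂ) *
          (Complex.exp (Complex.I * ((((u + a) - t * A n) * X n k : ℝ) : ℂ)) * ψ n t k)‖ ≤ 1 := by
        calc _ ≤ ∑ k ∈ s n, ‖(π n k : ℂ) *
          (Complex.exp (Complex.I * ((((u + a) - t * A n) * X n k : ℝ) : ℂ)) * ψ n t k)‖ := norm_sum_le _ _
          _ ≤ ∑ k ∈ s n, π n k := by
            apply Finset.sum_le_sum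
            intro k _
            rw [norm_mul, norm_mul, norm_cexp_I_mul, one_mul, Complex.norm_real, Real.norm_eq_abs,
              abs_of_nonneg (H.h1 n k)]
            exact mul_le_of_le_one_right (H.h1 n k) (H.h3 n t k)
          _ = 1 := hsum
      have h2 : ‖Complex.exp (-((t ^ 2 + (u + a) ^ 2) / 2 : ℝ))‖ ≤ 1 := by
        rw [← Complex.ofReal_neg, ← Complex.ofReal_exp, Complex.norm_real, Real.norm_eq_abs,
          abs_of_pos (Real.exp_pos _)]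
        apply Real.exp_le_one_iff.2
        have : 0 ≤ (t ^ 2 + (u + a) ^ 2) / 2 := by positivity
        linarith
      have h3 : (2:ℝ) ≤ 2 / R ^ 2 * u ^ 2 := by
        rw [div_mul_eq_mul_div, le_div_iff₀ (by positivity)]
        have : R ^ 2 ≤ u ^ 2 := by
          rw [← sq_abs u]
          exact pow_le_pow_left₀ (by linarith) hu.le 2
        linarith
      have h4 := norm_sub_le (∑ k ∈ s n, (π n k : ℂ) *
          (Complex.exp (Complex.I * ((((u + a) - t * A n) * X n k : ℝ) : ℂ)) * ψ n t k))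
          (Complex.exp (-((t ^ 2 + (u + a) ^ 2) / 2 : ℝ)))
      linarith
  calc _ ≤ ∫ u, (ε / 2 + 2 / R ^ 2 * u ^ 2) ∂(gm δ) := by
        apply norm_integral_le_of_norm_le
        · exact (integrable_const _).add (hsq.const_mul _)
        · filter_upwards with u
          exact hbound u
    _ = ε / 2 + 2 / R ^ 2 * M2 := by
        rw [integral_add (integrable_const _) (hsq.const_mul _), integral_const_mul, ← hM2]
        simp
    _ ≤ ε := by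
        have : 2 / R ^ 2 * M2 = 2 * M2 / R ^ 2 := by ring
        rw [this]; linarith

/-- the case `t = 0` -/
lemma lim_zero {s : ℕ → Finset ℕ} {π X : ℕ → ℕ → ℝ} {A : ℕ → ℝ} {ψ : ℕ → ℝ → ℕ → ℂ}
    {ψ0 : ℕ → ℝ → ℂ} {C : ℝ} (H : Hyp s π X A ψ ψ0 C) {δ : ℝ} (hδ : 0 < δ) (a ε : ℝ)
    (hε : 0 < ε) : ∀ᶠ n in atTop,
      ‖∑ k ∈ s n, (π n k : ℂ) * (Complex.exp (Complex.I * ((a * X n k : ℝ) : ℂ))
          * (K δ (X n k) : ℂ)) - ((kd δ * qd δ a : ℝ) : ℂ)‖ ≤ ε := by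
  filter_upwards [lim_unif H hδ (|a| + 1) ε (by positivity) hε, H.h5] with n hn h5
  have := hn 0 a (by simp; positivity) (by linarith)
  have e1 : Real.exp (-((0:ℝ) ^ 2 / 2)) * (kd δ * qd δ a) = kd δ * qd δ a := by simp
  rw [e1] at this
  have e2 : ∑ k ∈ s n, (π n k : ℂ) * (Complex.exp (Complex.I * (((a - 0 * A n) * X n k : ℝ) : ℂ)) * ψ n 0 k
          * (K δ (X n k) : ℂ)) = ∑ k ∈ s n, (π n k : ℂ) * (Complex.exp (Complex.I * ((a * X n k : ℝ) : ℂ))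
          * (K δ (X n k) : ℂ)) := by
    apply Finset.sum_congr rfl
    intro k hk
    rw [h5 k hk, zero_mul, sub_zero, mul_one]
  rw [e2] at this
  exact this

lemma lim_K {s : ℕ → Finset ℕ} {π X : ℕ → ℕ → ℝ} {A : ℕ → ℝ} {ψ : ℕ → ℝ → ℕ → ℂ}
    {ψ0 : ℕ → ℝ → ℂ} {C : ℝ} (H : Hyp s π X A ψ ψ0 C) {δ : ℝ} (hδ : 0 < δ) (ε : ℝ)
    (hε : 0 < ε) : ∀ᶠ n in atTop, |∑ k ∈ s n, π n k * K δ (X n k) - kd δ| ≤ ε := by
  filter_upwards [lim_zero H hδ 0 ε hε] with n hn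
  have e1 : ∑ k ∈ s n, (π n k : ℂ) * (Complex.exp (Complex.I * (((0:ℝ) * X n k : ℝ) : ℂ))
          * (K δ (X n k) : ℂ)) - ((kd δ * qd δ 0 : ℝ) : ℂ)
      = ((∑ k ∈ s n, π n k * K δ (X n k) - kd δ : ℝ) : ℂ) := by
    have : qd δ 0 = 1 := by unfold qd; simp
    rw [this]
    simp
  rw [e1, Complex.norm_real, Real.norm_eq_abs] at hn
  exact hn

/-- replacing `ψ` by a constant `z` in a window sum -/
lemma replace_le {s : Finset ℕ} {π X : ℕ → ℝ} {ψ φ : ℕ → ℂ} {z : ℂ} {L δ : ℝ} (hδ : 0 < δ)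
    (h1 : ∀ k, 0 ≤ π k) (hφ : ∀ k, ‖φ k‖ ≤ 1)
    (h : ∀ k ∈ s, π k ≠ 0 → ‖ψ k - z‖ ≤ L * |X k|) (hL : 0 ≤ L) :
    ‖∑ k ∈ s, (π k : ℂ) * (φ k * ψ k * (K δ (X k) : ℂ)) -
      z * ∑ k ∈ s, (π k : ℂ) * (φ k * (K δ (X k) : ℂ))‖ ≤
      L * δ * ∑ k ∈ s, π k * K (Real.sqrt 2 * δ) (X k) := by
  rw [Finset.mul_sum, ← Finset.sum_sub_distrib, Finset.mul_sum]
  refine (norm_sum_le _ _).trans (Finset.sum_le_sum ?_)
  intro k hk
  by_cases h0 : π k = 0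
  · simp [h0]
  have e : (π k : ℂ) * (φ k * ψ k * (K δ (X k) : ℂ)) - z * ((π k : ℂ) * (φ k * (K δ (X k) : ℂ))) =
      (π k : ℂ) * (φ k * ((ψ k - z) * (K δ (X k) : ℂ))) := by ring
  rw [e, norm_mul, norm_mul, norm_mul, Complex.norm_real, Complex.norm_real, Real.norm_eq_abs,
    Real.norm_eq_abs, abs_of_nonneg (h1 k), abs_of_pos (K_pos _ _)]
  have h2 := h k hk h0
  have h3 := absK_le hδ (X k)
  have h4 : ‖ψ k - z‖ * K δ (X k) ≤ L * (δ * K (Real.sqrt 2 * δ) (X k)) := by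
    calc ‖ψ k - z‖ * K δ (X k) ≤ (L * |X k|) * K δ (X k) :=
          mul_le_mul_of_nonneg_right h2 (K_pos _ _).le
      _ = L * (|X k| * K δ (X k)) := by ring
      _ ≤ L * (δ * K (Real.sqrt 2 * δ) (X k)) := mul_le_mul_of_nonneg_left h3 hL
  have h5 : ‖φ k‖ * (‖ψ k - z‖ * K δ (X k)) ≤ L * (δ * K (Real.sqrt 2 * δ) (X k)) := by
    refine (mul_le_of_le_one_left ?_ (hφ k)).trans h4
    have := K_pos δ (X k)
    positivity
  calc π k * (‖φ k‖ * (‖ψ k - z‖ * K δ (X k))) ≤ π k * (L * (δ * K (Real.sqrt 2 * δ) (X k))) :=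
        mul_le_mul_of_nonneg_left h5 (h1 k)
    _ = L * δ * (π k * K (Real.sqrt 2 * δ) (X k)) := by ring

end

end Pool.Agent.Helper41.MatchD3
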